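import Pool.Agent.helper55.NM.Spec

set_option autoImplicit false

namespace Pool.Agent.helper16.NM

open Pool.Agent.NM Finset Nat

theorem BAD_cardlt (q k : ℕ) (hk : k ≤ q) : (univ.filter (fun i : Fin q => i.val < k)).card = k := by
  have h : (univ.filter (fun i : Fin q => i.val < k)).card = (range k).card := by
    apply Finset.card_bij (fun (i : Fin q) _ => i.val)
    · intro i hi
      simpa using hi
    · intro i _ j _ hij
      exact Fin.ext hij
    · intro b hb
      have hb' := Finset.mem_range.mp hb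
      exact ⟨⟨b, by omega⟩, by simpa using hb', rfl⟩
  rw [h, Finset.card_range]

theorem BAD_split (q k m : ℕ) :
    univ.filter (fun i : Fin q => i.val < k - m) ∪ univ.filter (fun i : Fin q => k - m ≤ i.val ∧ i.val < k) =
      univ.filter (fun i : Fin q => i.val < k) := by
  ext i
  simp only [Finset.mem_union, Finset.mem_filter, Finset.mem_univ, true_and]
  omega

theorem BAD_disj (q k m : ℕ) :
    Disjoint (univ.filter (fun i : Fin q => i.val < k - m)) (univ.filter (fun i : Fin q => k - m ≤ i.val ∧ i.val < k)) := by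
  rw [Finset.disjoint_left]
  intro i hi hi'
  simp only [Finset.mem_filter, Finset.mem_univ, true_and] at hi hi'
  omega

theorem BAD : BAD_stmt := by
  intro q k m K y hy hk hkq hmk
  have hY : ∀ τ : Equiv.Perm (Fin q), 0 < Yp y τ k := by
    intro τ
    unfold Yp
    apply Finset.sum_pos (fun i _ => hy _)
    exact ⟨⟨0, by omega⟩, by simp; omega⟩
  have hYs : ∀ (i i' : Fin q), i.val < k → i'.val < k → ∀ τ : Equiv.Perm (Fin q),
      Yp y (τ * Equiv.swap i i') k = Yp y τ k := by
    intro i i' hi hi' τ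
    unfold Yp
    apply Finset.sum_equiv (Equiv.swap i i')
    · intro j
      simp only [Finset.mem_filter, Finset.mem_univ, true_and]
      by_cases h1 : j = i
      · rw [h1, Equiv.swap_apply_left]
        exact ⟨fun _ => hi', fun _ => hi⟩
      · by_cases h2 : j = i'
        · rw [h2, Equiv.swap_apply_right]
          exact ⟨fun _ => hi, fun _ => hi'⟩
        · rw [Equiv.swap_apply_of_ne_of_ne h1 h2]
    · intro j _
      rfl
  have hA : ∀ i i' : Fin q, i.val < k → i'.val < k →
      ∑ τ : Equiv.Perm (Fin q), y (τ i) / Yp y τ k = ∑ τ : Equiv.Perm (Fin q), y (τ i') / Yp y τ k := by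
    intro i i' hi hi'
    apply Fintype.sum_equiv (Equiv.mulRight (Equiv.swap i i'))
    intro τ
    show y (τ i) / Yp y τ k = y ((τ * Equiv.swap i i') i') / Yp y (τ * Equiv.swap i i') k
    rw [hYs i i' hi hi', Equiv.Perm.mul_apply, Equiv.swap_apply_right]
  have hsum : ∑ i ∈ univ.filter (fun i : Fin q => i.val < k),
      ∑ τ : Equiv.Perm (Fin q), y (τ i) / Yp y τ k = (q ! : ℝ) := by
    rw [Finset.sum_comm]
    have h1 : ∀ τ : Equiv.Perm (Fin q), ∑ i ∈ univ.filter (fun i : Fin q => i.val < k), y (τ i) / Yp y τ k = 1 := by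
      intro τ
      rw [← Finset.sum_div]
      exact div_self (hY τ).ne'
    rw [Finset.sum_congr rfl (fun τ _ => h1 τ), Finset.sum_const, Finset.card_univ, Fintype.card_perm,
      Fintype.card_fin]
    simp
  have h0q : 0 < q := by omega
  have h0 : (k : ℝ) * ∑ τ : Equiv.Perm (Fin q), y (τ ⟨0, h0q⟩) / Yp y τ k = (q ! : ℝ) := by
    rw [← hsum, Finset.sum_congr rfl (fun i hi => hA i ⟨0, h0q⟩ (by simpa using hi) (by show 0 < k; omega)),
      Finset.sum_const, BAD_cardlt q k hkq, nsmul_eq_mul]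
  have hD : ∀ τ : Equiv.Perm (Fin q), Yp y τ k - Yp y τ (k - m) =
      ∑ i ∈ univ.filter (fun i : Fin q => k - m ≤ i.val ∧ i.val < k), y (τ i) := by
    intro τ
    rw [sub_eq_iff_eq_add, Yp, Yp, ← BAD_split q k m, Finset.sum_union (BAD_disj q k m), add_comm]
  have hBcard : (univ.filter (fun i : Fin q => k - m ≤ i.val ∧ i.val < k)).card = m := by
    have h1 := Finset.card_union_of_disjoint (BAD_disj q k m)
    rw [BAD_split, BAD_cardlt q k hkq, BAD_cardlt q (k - m) (by omega)] at h1
    omega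
  have hDsum : ∑ τ : Equiv.Perm (Fin q), (Yp y τ k - Yp y τ (k - m)) / Yp y τ k =
      m * ∑ τ : Equiv.Perm (Fin q), y (τ ⟨0, h0q⟩) / Yp y τ k := by
    have h1 : ∀ τ : Equiv.Perm (Fin q), (Yp y τ k - Yp y τ (k - m)) / Yp y τ k =
        ∑ i ∈ univ.filter (fun i : Fin q => k - m ≤ i.val ∧ i.val < k), y (τ i) / Yp y τ k := by
      intro τ
      rw [hD, Finset.sum_div]
    rw [Finset.sum_congr rfl (fun τ _ => h1 τ), Finset.sum_comm,
      Finset.sum_congr rfl (fun i hi => hA i ⟨0, h0q⟩ (by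
        have := (Finset.mem_filter.mp hi).2
        exact this.2) (by show 0 < k; omega)),
      Finset.sum_const, hBcard, nsmul_eq_mul]
  have hnn : ∀ τ : Equiv.Perm (Fin q), 0 ≤ (K : ℝ) * ((Yp y τ k - Yp y τ (k - m)) / Yp y τ k) := by
    intro τ
    apply mul_nonneg (by positivity)
    apply div_nonneg _ (hY τ).le
    rw [hD]
    exact Finset.sum_nonneg (fun i _ => (hy _).le)
  have hbad : ((univ.filter (fun τ : Equiv.Perm (Fin q) => Yp y τ k ≤ K * (Yp y τ k - Yp y τ (k - m)))).card : ℝ) ≤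
      K * ∑ τ : Equiv.Perm (Fin q), (Yp y τ k - Yp y τ (k - m)) / Yp y τ k := by
    rw [Finset.mul_sum]
    calc ((univ.filter (fun τ : Equiv.Perm (Fin q) => Yp y τ k ≤ K * (Yp y τ k - Yp y τ (k - m)))).card : ℝ)
        = ∑ τ ∈ univ.filter (fun τ : Equiv.Perm (Fin q) => Yp y τ k ≤ K * (Yp y τ k - Yp y τ (k - m))), (1 : ℝ) := by
          simp
      _ ≤ ∑ τ ∈ univ.filter (fun τ : Equiv.Perm (Fin q) => Yp y τ k ≤ K * (Yp y τ k - Yp y τ (k - m))),
            (K : ℝ) * ((Yp y τ k - Yp y τ (k - m)) / Yp y τ k) := by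
          apply Finset.sum_le_sum
          intro τ hτ
          have h1 := (Finset.mem_filter.mp hτ).2
          rw [← mul_div_assoc, le_div_iff₀ (hY τ), one_mul]
          exact h1
      _ ≤ ∑ τ : Equiv.Perm (Fin q), (K : ℝ) * ((Yp y τ k - Yp y τ (k - m)) / Yp y τ k) := by
          apply Finset.sum_le_sum_of_subset_of_nonneg (Finset.filter_subset _ _)
          intro τ _ _
          exact hnn τ
  have hfin : ((univ.filter (fun τ : Equiv.Perm (Fin q) => Yp y τ k ≤ K * (Yp y τ k - Yp y τ (k - m)))).card : ℝ) * k ≤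
      K * m * (q ! : ℝ) := by
    have hk0 : (0 : ℝ) ≤ k := by positivity
    calc ((univ.filter (fun τ : Equiv.Perm (Fin q) => Yp y τ k ≤ K * (Yp y τ k - Yp y τ (k - m)))).card : ℝ) * k
        ≤ (K * ∑ τ : Equiv.Perm (Fin q), (Yp y τ k - Yp y τ (k - m)) / Yp y τ k) * k :=
          mul_le_mul_of_nonneg_right hbad hk0
      _ = K * m * (k * ∑ τ : Equiv.Perm (Fin q), y (τ ⟨0, h0q⟩) / Yp y τ k) := by
          rw [hDsum]; ring
      _ = K * m * (q ! : ℝ) := by rw [h0]
  exact_mod_cast hfin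

end Pool.Agent.helper16.NM
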