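import Pool.Agent.helper55.NM.Spec2

set_option autoImplicit false

namespace Pool.Agent.helper16.NM

open Pool.Agent.NM Pool.Agent.helper72.UP Finset Nat

theorem BZ_core {n p q : ℕ} (k : ℕ) (x : Fin n → ℝ) (P : Finset (Fin n)) (hP : ∀ i, i ∈ P ↔ 0 < x i)
    (hPc : P.card = p) (hq : p + q = n) (hx : ∀ i, x i ≠ 0) :
    ∃ (X : Fin p → ℝ) (y : Fin q → ℝ), (∀ i, 0 < X i) ∧ (∀ i, 0 < y i) ∧ zer x k ≤ (ZS X y k).card := by
  classical
  have hQc : Pᶜ.card = q := by
    rw [Finset.card_compl, Fintype.card_fin]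
    omega
  obtain ⟨f, hf⟩ : ∃ f : Fin p ≃ {i // i ∈ P}, f = (P.equivFinOfCardEq hPc).symm := ⟨_, rfl⟩
  obtain ⟨g, hg⟩ : ∃ g : Fin q ≃ {i // i ∈ Pᶜ}, g = (Pᶜ.equivFinOfCardEq hQc).symm := ⟨_, rfl⟩
  have hfP : ∀ a, 0 < x (f a) := fun a => (hP _).mp (f a).2
  have hgP : ∀ b, x (g b) < 0 := by
    intro b
    have h := Finset.mem_compl.mp (g b).2
    rw [hP] at h
    exact lt_of_le_of_ne (not_lt.mp h) (hx _)
  refine ⟨fun a => x (f a), fun b => - x (g b), hfP, fun b => by have := hgP b; linarith, ?_⟩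
  let F : Fin p ↪ Fin n := ⟨fun a => (f a : Fin n), fun a b h => f.injective (Subtype.ext h)⟩
  let G : Fin q ↪ Fin n := ⟨fun a => (g a : Fin n), fun a b h => g.injective (Subtype.ext h)⟩
  have hdis : ∀ (A : Finset (Fin p)) (B : Finset (Fin q)), Disjoint (A.map F) (B.map G) := by
    intro A B
    rw [Finset.disjoint_left]
    intro i hi hi'
    obtain ⟨a, _, ha⟩ := Finset.mem_map.mp hi
    obtain ⟨b, _, hb⟩ := Finset.mem_map.mp hi'
    have h1 := hfP a
    have h2 := hgP b
    have h3 : x (f a) = x i := congrArg x ha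
    have h4 : x (g b) = x i := congrArg x hb
    linarith
  have hkey : ∀ s : Finset (Fin n),
      (univ.filter (fun a => F a ∈ s)).map F ∪ (univ.filter (fun b => G b ∈ s)).map G = s := by
    intro s
    ext i
    simp only [Finset.mem_union, Finset.mem_map, Finset.mem_filter, Finset.mem_univ, true_and]
    constructor
    · rintro (⟨a, ha, rfl⟩ | ⟨b, hb, rfl⟩) <;> assumption
    · intro hi
      by_cases hiP : i ∈ P
      · left
        have h1 : F (f.symm ⟨i, hiP⟩) = i := by
          show ((f (f.symm ⟨i, hiP⟩)) : Fin n) = i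
          rw [Equiv.apply_symm_apply]
        exact ⟨f.symm ⟨i, hiP⟩, by rw [h1]; exact hi, h1⟩
      · right
        have hiQ : i ∈ Pᶜ := Finset.mem_compl.mpr hiP
        have h1 : G (g.symm ⟨i, hiQ⟩) = i := by
          show ((g (g.symm ⟨i, hiQ⟩)) : Fin n) = i
          rw [Equiv.apply_symm_apply]
        exact ⟨g.symm ⟨i, hiQ⟩, by rw [h1]; exact hi, h1⟩
  unfold zer
  apply Finset.card_le_card_of_injOn
    (fun s => (univ.filter (fun a => F a ∈ s), univ.filter (fun b => G b ∈ s)))
  · intro s hs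
    obtain ⟨hne, hk, hsum⟩ := (Finset.mem_filter.mp (Finset.mem_coe.mp hs)).2
    have hsum2 : ∑ a ∈ univ.filter (fun a => F a ∈ s), x (f a) + ∑ b ∈ univ.filter (fun b => G b ∈ s), x (g b) = 0 := by
      rw [← hsum]
      conv_rhs => rw [← hkey s]
      rw [Finset.sum_union (hdis _ _), Finset.sum_map, Finset.sum_map]
      rfl
    have hcard2 : (univ.filter (fun a => F a ∈ s)).card + (univ.filter (fun b => G b ∈ s)).card = s.card := by
      conv_rhs => rw [← hkey s]
      rw [Finset.card_union_of_disjoint (hdis _ _), Finset.card_map, Finset.card_map]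
    apply Finset.mem_coe.mpr
    unfold ZS
    apply Finset.mem_filter.mpr
    refine ⟨Finset.mem_univ _, ?_, ?_, ?_⟩
    · by_contra hemp
      rw [Finset.not_nonempty_iff_eq_empty] at hemp
      change univ.filter (fun a => F a ∈ s) = ∅ at hemp
      rw [hemp, Finset.sum_empty, zero_add] at hsum2
      have hne2 : (univ.filter (fun b => G b ∈ s)).Nonempty := by
        rw [hemp, Finset.card_empty, zero_add] at hcard2
        rw [← Finset.card_pos, hcard2]
        exact Finset.card_pos.mpr hne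
      have := Finset.sum_neg (fun b _ => hgP b) hne2
      linarith
    · show (univ.filter (fun a => F a ∈ s)).card + (univ.filter (fun b => G b ∈ s)).card ≤ k
      omega
    · show ∑ a ∈ univ.filter (fun a => F a ∈ s), x (f a) = ∑ b ∈ univ.filter (fun b => G b ∈ s), - x (g b)
      rw [Finset.sum_neg_distrib]
      linarith
  · intro s _ t _ hst
    have hst1 : univ.filter (fun a => F a ∈ s) = univ.filter (fun a => F a ∈ t) := congrArg Prod.fst hst
    have hst2 : univ.filter (fun b => G b ∈ s) = univ.filter (fun b => G b ∈ t) := congrArg Prod.snd hst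
    rw [← hkey s, ← hkey t, hst1, hst2]

theorem BZ (hBB : BB_stmt) : BZ_stmt := by
  intro ε p hε hp
  obtain ⟨n0, h0⟩ := hBB ε p hε hp
  refine ⟨n0 + 1, ?_⟩
  intro n k x hn h1 h2 hx hcard
  have hpn : p ≤ n := by
    rw [← hcard]
    refine (Finset.card_le_univ _).trans ?_
    rw [Fintype.card_fin]
  obtain ⟨q, hq⟩ : ∃ q, p + q = n := ⟨n - p, by omega⟩
  obtain ⟨X, y, hX, hy, hz⟩ := BZ_core k x _ (fun i => by simp) hcard hq hx
  have hnpos : (0 : ℝ) < n := by
    have : 0 < n := by omega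
    exact_mod_cast this
  have hqr : (p : ℝ) + q = n := by exact_mod_cast hq
  have h3 := h0 q k (by omega) (by rw [hqr, le_div_iff₀ hnpos]; exact h1)
    (by rw [hqr, div_le_iff₀ hnpos]; exact h2) X y hX hy
  rw [hq] at h3
  exact hz.trans h3

end Pool.Agent.helper16.NM
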